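import Pool.Agent.Q279.TO.Rec

/-!
# `q T_o(q) = ∑ q^{(n+1)(2n+1)} + (-q;q)_∞^2 ∑_{j odd} q^{j(3j+1)/2} (1 - q^{2j+1})`
-/

set_option autoImplicit false

namespace Q279.TO

open PowerSeries Q279.QS Filter Topology
open scoped PowerSeries.WithPiTopology

/-! ### the false theta function -/

noncomputable def Dj (i n : ℕ) : ℤ⟦X⟧ := ∏ k ∈ Finset.range n, iv (i + k)

theorem Dj_succ (i n : ℕ) : Dj i (n + 1) = Dj i n * iv (i + n) := by
  rw [Dj, Finset.prod_range_succ]; rfl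

theorem Dj_shift (i n : ℕ) : Dj (i + 1) n = Dj i (n + 1) * (1 + X ^ (i + 1)) := by
  rw [Dj, Dj, Finset.prod_range_succ']
  have h : ∀ k ∈ Finset.range n, iv (i + 1 + k) = iv (i + (k + 1)) := fun k _ => by congr 1; ring
  rw [Finset.prod_congr rfl h, mul_assoc, mul_comm (iv (i + 0)), show i + 0 = i from rfl, iv_mul,
    mul_one]

noncomputable def gT (i n : ℕ) : ℤ⟦X⟧ := (-1) ^ n * X ^ (2 * i * n + (n + n.choose 2)) * Dj i n

noncomputable def sT (i n : ℕ) : ℤ⟦X⟧ := gT i n * (1 - X ^ (2 * i + n + 1))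

theorem Ad_g (i : ℕ) : Ad (gT i) := fun n =>
  ((pow_dvd_pow X (by omega)).mul_left _).mul_right _

theorem Ad_s (i : ℕ) : Ad (sT i) := fun n => (Ad_g i n).mul_right _

theorem choose_succ (n : ℕ) : (n + 1).choose 2 = n.choose 2 + n := by
  rw [Nat.choose_succ_succ' n 1, Nat.choose_one_right, add_comm]

theorem alg_g {R : Type*} [CommRing R] (s K D η y x q : R) (h : (1 + y * x * q) * η = 1) :
    s * K * D - y ^ 3 * q ^ 2 * (s * (K * x ^ 2) * (D * η * (1 + y * q))) =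
      s * K * D * (1 - y ^ 2 * x * q) -
        -s * (K * y ^ 2 * (x * q)) * (D * η) * (1 - y ^ 2 * x * q ^ 2) := by
  linear_combination (-s * K * D * y ^ 2 * x * q) * h

theorem g_rec (i n : ℕ) : gT i n - X ^ (3 * i + 2) * gT (i + 1) n = sT i n - sT i (n + 1) := by
  have h1 := iv_mul (i + n)
  unfold sT gT
  rw [Dj_shift, Dj_succ, choose_succ]
  rw [show 2 * (i + 1) * n + (n + n.choose 2) = 2 * i * n + (n + n.choose 2) + 2 * n by ring,
    show 2 * i * (n + 1) + (n + 1 + (n.choose 2 + n)) =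
      (2 * i * n + (n + n.choose 2)) + 2 * i + (n + 1) by ring,
    show 2 * i + (n + 1) + 1 = 2 * i + n + 2 by ring]
  generalize iv (i + n) = η at h1 ⊢
  generalize 2 * i * n + (n + n.choose 2) = k
  have e3 : (X : ℤ⟦X⟧) ^ (3 * i + 2) = (X ^ i) ^ 3 * X ^ 2 := by rw [pow_add, ← pow_mul]; congr 2; ring
  have e2 : (X : ℤ⟦X⟧) ^ (2 * i) = (X ^ i) ^ 2 := by rw [← pow_mul]; congr 1; ring
  have e1 : (X : ℤ⟦X⟧) ^ (2 * n) = (X ^ n) ^ 2 := by rw [← pow_mul]; congr 1; ring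
  rw [e3]
  rw [pow_add X k (2 * n), pow_add X (k + 2 * i) (n + 1), pow_add X k (2 * i), pow_add X (2 * i + n) 1,
    pow_add X (2 * i + n) 2, pow_add X (2 * i) n, pow_add X n 1, pow_add X i 1, e2, e1, pow_one]
  rw [pow_add X (i + n) 1, pow_add X i n, pow_one] at h1
  rw [pow_succ (-1 : ℤ⟦X⟧), mul_neg_one]
  exact alg_g _ _ _ _ _ _ _ h1

noncomputable def GG (i : ℕ) : ℤ⟦X⟧ := SS (gT i)

theorem GG_rec (i : ℕ) : GG i - X ^ (3 * i + 2) * GG (i + 1) = 1 - X ^ (2 * i + 1) := by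
  unfold GG
  rw [← SS_mul (Ad_g (i + 1)), ← SS_sub, SS_congr (g_rec i), SS_tele (Ad_s i)]
  simp [sT, gT, Dj]

noncomputable def pT (i n : ℕ) : ℤ⟦X⟧ :=
  X ^ (3 * i * n + (2 * n + 3 * n.choose 2)) * (1 - X ^ (2 * i + 2 * n + 1))

theorem Ad_p (i : ℕ) : Ad (pT i) := fun n => (pow_dvd_pow X (by omega)).mul_right _

noncomputable def PP (i : ℕ) : ℤ⟦X⟧ := SS (pT i)

theorem p_shift (i n : ℕ) : pT i (n + 1) = X ^ (3 * i + 2) * pT (i + 1) n := by
  unfold pT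
  rw [choose_succ, ← mul_assoc, ← pow_add]
  congr 2
  · ring
  · congr 1; ring

theorem PP_rec (i : ℕ) : PP i - X ^ (3 * i + 2) * PP (i + 1) = 1 - X ^ (2 * i + 1) := by
  unfold PP
  rw [SS_shift (Ad_p i), SS_congr (p_shift i), SS_mul (Ad_p (i + 1)), add_sub_cancel_right]
  simp [pT]

theorem GG_eq_PP (i : ℕ) : GG i = PP i := by
  have h := uniq (δ := fun i => GG i - PP i) (e := fun _ => 1) (c := fun i => X ^ (3 * i + 1))
    (fun _ => by simp) (fun i => by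
      have h1 := GG_rec i
      have h2 := PP_rec i
      have e : (X : ℤ⟦X⟧) ^ (3 * i + 2) = X * X ^ (3 * i + 1) := by rw [← pow_succ']
      rw [e] at h1 h2
      linear_combination h1 - h2) i
  exact sub_eq_zero.1 h

theorem D_split (n : ℕ) : Dj 0 (2 * n + 1) = Pj 0 n * On (n + 1) := by
  induction n with
  | zero => simp [Dj, Pj, On]
  | succ n ih =>
    rw [show 2 * (n + 1) + 1 = 2 * n + 1 + 1 + 1 by ring, Dj_succ, Dj_succ, ih, Pj_succ, On_succ (n + 1),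
      show 0 + (2 * n + 1) = 2 * 0 + 1 + 2 * n by ring,
      show 0 + (2 * n + 1 + 1) = 2 * (n + 1) by ring]
    ring

theorem choose_double (n : ℕ) : 2 * n + (2 * n).choose 2 = (2 * 0 + 1) * n + 2 * n ^ 2 := by
  induction n with
  | zero => rfl
  | succ n ih =>
    have h1 : (2 * (n + 1)).choose 2 = (2 * n).choose 2 + 2 * n + (2 * n + 1) := by
      rw [show 2 * (n + 1) = 2 * n + 1 + 1 by ring, choose_succ, choose_succ]
    rw [h1]
    nlinarith

theorem a_zero (n : ℕ) : gT 0 (2 * n) + gT 0 (2 * n + 1) = aT 0 n := by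
  have h1 := iv_mul (2 * n)
  have h2 := D_split n
  have h3 := Dj_succ 0 (2 * n)
  rw [zero_add] at h3
  unfold gT aT
  rw [mul_assoc _ (Pj 0 n), ← h2, h3, choose_succ (2 * n), ← choose_double n]
  rw [show 2 * 0 * (2 * n) + (2 * n + (2 * n).choose 2) = 2 * n + (2 * n).choose 2 by ring,
    show 2 * 0 * (2 * n + 1) + (2 * n + 1 + ((2 * n).choose 2 + 2 * n)) =
      (2 * n + (2 * n).choose 2) + (2 * n + 1) by ring]
  rw [pow_add X (2 * n + (2 * n).choose 2) (2 * n + 1), pow_succ (-1 : ℤ⟦X⟧) (2 * n),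
    Even.neg_one_pow ⟨n, by ring⟩]
  linear_combination (-(X ^ (2 * n + (2 * n).choose 2) * Dj 0 (2 * n))) * h1

theorem AA_zero : AA 0 = PP 0 := by
  rw [← GG_eq_PP, GG, SS_pair (Ad_g 0), SS_congr a_zero]
  rfl

/-! ### the partial theta function -/

theorem EP_one (n : ℕ) : En n * Pj 0 n = 1 := by
  induction n with
  | zero => simp [En, Pj]
  | succ n ih =>
    have h := iv_mul (2 * 0 + 1 + 2 * n)
    rw [show 2 * 0 + 1 + 2 * n + 1 = 2 * n + 2 by ring] at h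
    rw [En_succ, Pj_succ]
    linear_combination h + (1 + X ^ (2 * n + 2)) * iv (2 * 0 + 1 + 2 * n) * ih

theorem NO_one (n : ℕ) : Nj 0 n * On n = 1 := by
  induction n with
  | zero => simp [Nj, On]
  | succ n ih =>
    have h := iv_mul (2 * n)
    rw [Nj_succ, On_succ, show 2 * 0 + 1 + 2 * n = 2 * n + 1 by ring]
    linear_combination h + (1 + X ^ (2 * n + 1)) * iv (2 * n) * ih

theorem c_zero (n : ℕ) : cT 0 n = X ^ (n + 2 * n ^ 2) - X ^ ((n + 1) * (2 * n + 1)) := by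
  have h1 := EP_one n
  have h2 := NO_one n
  have h3 := iv_mul (2 * n)
  unfold cT
  rw [On_succ, show (2 * 0 + 1) * n + 2 * n ^ 2 = n + 2 * n ^ 2 by ring,
    show 2 * 0 + 4 * n + 2 = (2 * n + 1) + (2 * n + 1) by ring,
    show (n + 1) * (2 * n + 1) = (n + 2 * n ^ 2) + (2 * n + 1) by ring, pow_add X (2 * n + 1),
    pow_add X (n + 2 * n ^ 2)]
  calc _ = X ^ (n + 2 * n ^ 2) * (En n * Pj 0 n) * (Nj 0 n * On n) *
        ((1 + X ^ (2 * n + 1)) * iv (2 * n)) * (1 - X ^ (2 * n + 1)) := by ring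
    _ = _ := by rw [h1, h2, h3]; ring

/-- `∑ X^{n(2n+1)}` -/
noncomputable def psie : ℤ⟦X⟧ := SS fun n => X ^ (n + 2 * n ^ 2)

/-- `∑ X^{(n+1)(2n+1)}` -/
noncomputable def psio : ℤ⟦X⟧ := SS fun n => X ^ ((n + 1) * (2 * n + 1))

theorem CC_zero : CC 0 = psie - psio := by
  unfold CC psie psio
  rw [← SS_sub, SS_congr c_zero]

theorem mono_eq (e : ℕ → ℕ) (he : ∀ n, n ≤ e n) :
    SS (fun n => X ^ e n) = TS (fun n : ℕ => (e n : ℤ)) (fun _ => (1 : ℤ)) := by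
  rw [← SS_eq_TS he]
  exact SS_congr fun n => by simp

theorem le_e1 (n : ℕ) : n ≤ n + 2 * n ^ 2 := by omega
theorem le_e2 (n : ℕ) : n ≤ (n + 1) * (2 * n + 1) := by nlinarith

theorem psi_eq : eul 2 ^ 2 = eul 1 * (psie + psio) := by
  rw [gauss_psi]
  congr 1
  have h1 : TS (fun n : ℤ => 2 * n ^ 2 - n) (fun _ => (1 : ℤ)) =
      TS (fun n : ℤ => 2 * n ^ 2 + n) (fun _ => (1 : ℤ)) := by
    rw [← TS_equiv (Equiv.neg ℤ) (fun n : ℤ => 2 * n ^ 2 - n) (fun _ => (1 : ℤ))]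
    exact TS_congr (fun n => by simp) fun _ => rfl
  have hF : FF fun n : ℤ => 2 * n ^ 2 + n := fun m =>
    (Set.finite_Icc (-m) m).subset fun n hn => by
      have h2 : 2 * n ^ 2 + n = m := hn
      rw [Set.mem_Icc]
      constructor <;> nlinarith [sq_nonneg n, sq_nonneg (n + 1), sq_nonneg (n - 1)]
  rw [h1, TS_int hF, psie, psio, mono_eq _ le_e1, mono_eq _ le_e2]
  congr 1
  · exact TS_congr (fun n => by push_cast; ring) fun _ => rfl
  · exact TS_congr (fun n => by push_cast; ring) fun _ => rfl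

/-! ### the product -/

theorem EN_mul (m : ℕ) : En m * Nj 0 m * (∏ i ∈ Finset.range (2 * m), (1 - X ^ (1 * (i + 1)))) =
    ∏ i ∈ Finset.range (2 * m), (1 - X ^ (2 * (i + 1)) : ℤ⟦X⟧) := by
  induction m with
  | zero => simp [En, Nj]
  | succ m ih =>
    rw [show 2 * (m + 1) = 2 * m + 1 + 1 by ring, Finset.prod_range_succ, Finset.prod_range_succ,
      Finset.prod_range_succ, Finset.prod_range_succ, ← ih, En_succ, Nj_succ]
    rw [show 2 * 0 + 1 + 2 * m = 2 * m + 1 by ring, show 1 * (2 * m + 1) = 2 * m + 1 by ring,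
      show 1 * (2 * m + 1 + 1) = 2 * m + 2 by ring,
      show 2 * (2 * m + 1) = (2 * m + 1) + (2 * m + 1) by ring,
      show 2 * (2 * m + 1 + 1) = (2 * m + 2) + (2 * m + 2) by ring, pow_add X (2 * m + 1) (2 * m + 1),
      pow_add X (2 * m + 2) (2 * m + 2)]
    ring

theorem I_mul (m : ℕ) : In m * (∏ i ∈ Finset.range (2 * m), (1 - X ^ (1 * (i + 1)))) =
    ∏ i ∈ Finset.range m, (1 - X ^ (2 * (i + 1)) : ℤ⟦X⟧) := by
  induction m with
  | zero => simp [In]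
  | succ m ih =>
    have h := iw_mul (2 * m)
    rw [show 2 * (m + 1) = 2 * m + 1 + 1 by ring, Finset.prod_range_succ, Finset.prod_range_succ,
      Finset.prod_range_succ, ← ih, In_succ, show 1 * (2 * m + 1) = 2 * m + 1 by ring,
      show 1 * (2 * m + 1 + 1) = 2 * (m + 1) by ring]
    linear_combination (In m * (∏ i ∈ Finset.range (2 * m), (1 - X ^ (1 * (i + 1)))) *
      (1 - X ^ (2 * (m + 1)))) * h

theorem pj_eq : pj 0 * eul 1 ^ 2 = eul 2 ^ 2 := by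
  have t1 : Tendsto (fun m => ∏ i ∈ Finset.range (2 * m), (1 - X ^ (1 * (i + 1)) : ℤ⟦X⟧)) atTop
      (𝓝 (eul 1)) := by
    have := (mult_eul 1 le_rfl).hasProd.tendsto_prod_nat
    exact this.comp (tendsto_id.const_mul_atTop' (by norm_num : 0 < 2))
  have t2 : Tendsto (fun m => ∏ i ∈ Finset.range (2 * m), (1 - X ^ (2 * (i + 1)) : ℤ⟦X⟧)) atTop
      (𝓝 (eul 2)) := by
    have := (mult_eul 2 (by norm_num)).hasProd.tendsto_prod_nat
    exact this.comp (tendsto_id.const_mul_atTop' (by norm_num : 0 < 2))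
  have t3 : Tendsto (fun m => ∏ i ∈ Finset.range m, (1 - X ^ (2 * (i + 1)) : ℤ⟦X⟧)) atTop
      (𝓝 (eul 2)) := (mult_eul 2 (by norm_num)).hasProd.tendsto_prod_nat
  have t4 : Tendsto (uT 0) atTop (𝓝 (pj 0)) := tendsto_of_dvd (pj_dvd 0)
  have t5 := t4.mul (t1.pow 2)
  have t6 := t2.mul t3
  have h : ∀ m, uT 0 m * (∏ i ∈ Finset.range (2 * m), (1 - X ^ (1 * (i + 1)) : ℤ⟦X⟧)) ^ 2 =
      (∏ i ∈ Finset.range (2 * m), (1 - X ^ (2 * (i + 1)))) *
        ∏ i ∈ Finset.range m, (1 - X ^ (2 * (i + 1))) := by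
    intro m
    rw [← EN_mul, ← I_mul]
    unfold uT
    ring
  have t7 := tendsto_nhds_unique (t5.congr h) t6
  rw [t7, pow_two]

/-! ### the final formula -/

noncomputable def B1 : ℤ⟦X⟧ := SS fun i => X ^ ((2 * i + 1) * (3 * i + 2))
noncomputable def B2 : ℤ⟦X⟧ := SS fun i => X ^ ((i + 1) * (6 * i + 5))

theorem eul_one_SS : eul 1 = SS fun n => (-1) ^ n * pT 0 n := by
  have h1 : TS (te 1 2) (fun n : ℤ => (-1 : ℤ) ^ n.natAbs) =
      TS (te 2 1) (fun n : ℤ => (-1 : ℤ) ^ n.natAbs) := by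
    rw [← TS_equiv (Equiv.neg ℤ) (te 1 2) (fun n : ℤ => (-1 : ℤ) ^ n.natAbs)]
    refine TS_congr (fun n => ?_) fun n => by simp
    have e1 := two_tri n
    have e2 := two_tri (-n)
    simp only [Equiv.neg_apply]
    unfold te
    push_cast
    linarith
  rw [Q279.QS.pentagonal, h1, TS_int (FF_te (by norm_num) le_rfl)]
  have e1 : (fun n : ℕ => te 2 1 (n : ℤ)) = fun n : ℕ => ((2 * n + 3 * n.choose 2 : ℕ) : ℤ) := by
    funext n; rw [te_natCast]
  have e2 : (fun n : ℕ => te 2 1 (-((n : ℤ) + 1))) =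
      fun n : ℕ => ((4 * n + 1 + 3 * n.choose 2 : ℕ) : ℤ) := by
    funext n; rw [te_neg, choose_succ]; congr 1; ring
  have e3 : (fun n : ℕ => (-1 : ℤ) ^ (-((n : ℤ) + 1)).natAbs) = fun n : ℕ => (-1 : ℤ) ^ (n + 1) := by
    funext n
    have : (-((n : ℤ) + 1)).natAbs = n + 1 := by omega
    rw [this]
  have e4 : (fun n : ℕ => (-1 : ℤ) ^ (n : ℤ).natAbs) = fun n : ℕ => (-1 : ℤ) ^ n := by
    funext n; rw [Int.natAbs_natCast]
  rw [e1, e2, e3, e4, ← SS_eq_TS (fun n => by omega), ← SS_eq_TS (fun n => by omega), ← SS_add]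
  refine SS_congr fun n => ?_
  unfold pT
  rw [show 3 * 0 * n + (2 * n + 3 * n.choose 2) = 2 * n + 3 * n.choose 2 by ring,
    show 2 * 0 + 2 * n + 1 = 2 * n + 1 by ring,
    show 4 * n + 1 + 3 * n.choose 2 = (2 * n + 3 * n.choose 2) + (2 * n + 1) by ring, pow_add X _ (2 * n + 1)]
  simp only [map_pow, map_neg, map_one]
  ring

theorem two_choose (n : ℕ) : 2 * n.choose 2 = n * (n - 1) := by
  rw [Nat.choose_two_right]
  exact Nat.mul_div_cancel' (Nat.even_mul_pred_self n).two_dvd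

theorem two_choose' (n : ℕ) : 2 * (2 * n + 1).choose 2 = (2 * n + 1) * (2 * n) := by
  rw [two_choose]; rfl

theorem PP_eq : PP 0 = eul 1 + 2 * (B1 - B2) := by
  have hA : Ad fun n => (-1) ^ n * pT 0 n := fun n => (Ad_p 0 n).mul_left _
  have hA2 : Ad fun n => pT 0 n - (-1) ^ n * pT 0 n := fun n => dvd_sub (Ad_p 0 n) (hA n)
  have h1 : PP 0 - eul 1 = SS fun n => pT 0 n - (-1) ^ n * pT 0 n := by
    rw [SS_sub, eul_one_SS]; rfl
  have hB : Ad fun i => (X : ℤ⟦X⟧) ^ ((2 * i + 1) * (3 * i + 2)) - X ^ ((i + 1) * (6 * i + 5)) :=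
    fun i => dvd_sub (pow_dvd_pow X (by nlinarith)) (pow_dvd_pow X (by nlinarith))
  have h2 : B1 - B2 = SS fun i => (X : ℤ⟦X⟧) ^ ((2 * i + 1) * (3 * i + 2)) - X ^ ((i + 1) * (6 * i + 5)) := by
    rw [SS_sub]; rfl
  rw [← sub_eq_iff_eq_add', h1, SS_pair hA2, h2, ← SS_mul hB]
  refine SS_congr fun i => ?_
  unfold pT
  rw [Even.neg_one_pow ⟨i, by ring⟩, Odd.neg_one_pow ⟨i, rfl⟩]
  have e1 : 3 * 0 * (2 * i + 1) + (2 * (2 * i + 1) + 3 * (2 * i + 1).choose 2) =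
      (2 * i + 1) * (3 * i + 2) := by
    have := two_choose' i
    nlinarith
  have e2 : (i + 1) * (6 * i + 5) = (2 * i + 1) * (3 * i + 2) + (2 * 0 + 2 * (2 * i + 1) + 1) := by
    ring
  rw [e1, e2, pow_add X _ (2 * 0 + 2 * (2 * i + 1) + 1)]
  ring

/-- **exact formula**: `X T_o = ψ_o + π_0 (B1 - B2)` -/
theorem formula : X * LL 0 = psio + pj 0 * (B1 - B2) := by
  have h1 := main_rec 0
  have h2 := pj_eq
  have h3 := psi_eq
  have h4 : pj 0 * eul 1 = psie + psio := by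
    refine mul_right_cancel₀ (eul_ne_zero le_rfl) ?_
    linear_combination h2 + h3
  rw [AA_zero, CC_zero, PP_eq, mul_zero, pow_zero] at h1
  have h5 : (2 : ℤ⟦X⟧) * (X * LL 0 - (psio + pj 0 * (B1 - B2))) = 0 := by
    linear_combination h1 + h4
  exact sub_eq_zero.1 ((mul_eq_zero.1 h5).resolve_left two_ps_ne)

end Q279.TO
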