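import Pool.Agent.Q279.TO.Main

/-!
# Parity of the coefficients of `T_o`
-/

set_option autoImplicit false

namespace Q279.TO

open PowerSeries Q279.QS
open scoped PowerSeries.WithPiTopology

theorem red_pj : red 2 (pj 0) = red 2 (eul 2) := by
  haveI : Fact (Nat.Prime 2) := ⟨by norm_num⟩
  have h1 : red 2 (eul 1 ^ 2) = red 2 (eul 2) := by
    rw [red_pow, ← red_expand (p := 2) (k := 2) (by norm_num), expand_eul (by norm_num) le_rfl]
  have h2 := congrArg (red 2) pj_eq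
  rw [map_mul, h1, map_pow, pow_two] at h2
  have h3 : red 2 (eul 2) ≠ 0 := by
    intro h
    have h4 := congrArg (coeff 0) h
    rw [coeff_map, coeff_zero_eq_constantCoeff_apply, constCoeff_eul (by norm_num), map_one,
      map_zero] at h4
    exact one_ne_zero h4
  exact mul_right_cancel₀ h3 h2

theorem B1_eq : B1 = TS (fun i : ℕ => (((2 * i + 1) * (3 * i + 2) : ℕ) : ℤ)) (fun _ => (1 : ℤ)) :=
  mono_eq (fun i => (2 * i + 1) * (3 * i + 2)) fun i => by nlinarith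

theorem B2_eq : B2 = TS (fun i : ℕ => (((i + 1) * (6 * i + 5) : ℕ) : ℤ)) (fun _ => (1 : ℤ)) :=
  mono_eq (fun i => (i + 1) * (6 * i + 5)) fun i => by nlinarith

theorem psio_eq : psio = TS (fun i : ℕ => (((i + 1) * (2 * i + 1) : ℕ) : ℤ)) (fun _ => (1 : ℤ)) :=
  mono_eq (fun i => (i + 1) * (2 * i + 1)) le_e2

theorem coeff_psio {n : ℕ} (h : ¬ ∃ x y : ℤ, 8 * (n : ℤ) + 9 = x ^ 2 + 2 * y ^ 2) :
    coeff (n + 1) psio = 0 := by
  rw [psio_eq]
  refine coeff_TS_of_zero fun i hi => ?_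
  exfalso
  apply h
  refine ⟨4 * i + 3, 0, ?_⟩
  push_cast at hi
  linear_combination (-8) * hi

theorem coeff_B1 {n : ℕ} (h : ¬ ∃ x y : ℤ, 8 * (n : ℤ) + 9 = x ^ 2 + 2 * y ^ 2) :
    coeff (n + 1) (eul 2 * B1) = 0 := by
  have hF : FF fun i : ℕ => (((2 * i + 1) * (3 * i + 2) : ℕ) : ℤ) :=
    FF_nat fun i => by exact_mod_cast (by nlinarith : i ≤ (2 * i + 1) * (3 * i + 2))
  have h30 : ∀ j : ℤ, 0 ≤ 3 * j ^ 2 - j := fun j => by nlinarith [sq_nonneg j, sq_nonneg (j - 1)]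
  rw [eul_two_eq, B1_eq, TS_mul FF_three hF h30 (fun i => by positivity)]
  refine coeff_TS_of_zero ?_
  rintro ⟨j, i⟩ hi
  exfalso
  apply h
  refine ⟨4 * i - 4 * j + 3, 4 * i + 2 * j + 2, ?_⟩
  simp only at hi
  push_cast at hi
  linear_combination (-8) * hi

theorem coeff_B2 {n : ℕ} (h : ¬ ∃ x y : ℤ, 8 * (n : ℤ) + 9 = x ^ 2 + 2 * y ^ 2) :
    coeff (n + 1) (eul 2 * B2) = 0 := by
  have hF : FF fun i : ℕ => (((i + 1) * (6 * i + 5) : ℕ) : ℤ) :=
    FF_nat fun i => by exact_mod_cast (by nlinarith : i ≤ (i + 1) * (6 * i + 5))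
  have h30 : ∀ j : ℤ, 0 ≤ 3 * j ^ 2 - j := fun j => by nlinarith [sq_nonneg j, sq_nonneg (j - 1)]
  rw [eul_two_eq, B2_eq, TS_mul FF_three hF h30 (fun i => by positivity)]
  refine coeff_TS_of_zero ?_
  rintro ⟨j, i⟩ hi
  exfalso
  apply h
  refine ⟨4 * i + 4 * j + 3, 4 * i - 2 * j + 4, ?_⟩
  simp only at hi
  push_cast at hi
  linear_combination (-8) * hi

theorem coeff_LL {n : ℕ} (h : ¬ ∃ x y : ℤ, 8 * (n : ℤ) + 9 = x ^ 2 + 2 * y ^ 2) :
    (2 : ℤ) ∣ coeff n (LL 0) := by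
  have h1 : red 2 (X * LL 0) = red 2 (psio + (eul 2 * B1 - eul 2 * B2)) := by
    rw [formula, map_add, map_add, map_mul, red_pj, ← map_mul]
    congr 2
    ring
  have h2 : coeff (n + 1) (red 2 (X * LL 0)) = 0 := by
    rw [h1, coeff_map, map_add, map_sub, coeff_psio h, coeff_B1 h, coeff_B2 h]
    simp
  rw [coeff_red_eq_zero, coeff_succ_X_mul] at h2
  exact_mod_cast h2

/-- the `m`-th term of `T_o` -/
noncomputable def term (m : ℕ) : ℤ⟦X⟧ :=
  X ^ (2 * m) * (∏ k ∈ Finset.range (2 * m), (1 + X ^ (k + 1))) *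
    invOfUnit (∏ k ∈ Finset.range (m + 1), (1 - X ^ (2 * k + 1))) 1

theorem EN_eq (m : ℕ) : ∏ k ∈ Finset.range (2 * m), (1 + X ^ (k + 1) : ℤ⟦X⟧) = En m * Nj 0 m := by
  induction m with
  | zero => simp [En, Nj]
  | succ m ih =>
    rw [show 2 * (m + 1) = 2 * m + 1 + 1 by ring, Finset.prod_range_succ, Finset.prod_range_succ, ih,
      En_succ, Nj_succ, show 2 * 0 + 1 + 2 * m = 2 * m + 1 by ring,
      show 2 * m + 1 + 1 = 2 * m + 2 by ring]
    ring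

theorem In_mul (m : ℕ) : (∏ k ∈ Finset.range m, (1 - X ^ (2 * k + 1) : ℤ⟦X⟧)) * In m = 1 := by
  induction m with
  | zero => simp [In]
  | succ m ih =>
    rw [Finset.prod_range_succ, In_succ]
    linear_combination iw_mul (2 * m) + (1 - X ^ (2 * m + 1)) * iw (2 * m) * ih

theorem inv_eq (m : ℕ) : invOfUnit (∏ k ∈ Finset.range m, (1 - X ^ (2 * k + 1) : ℤ⟦X⟧)) 1 = In m := by
  have h1 := In_mul m
  have h2 := mul_invOfUnit (∏ k ∈ Finset.range m, (1 - X ^ (2 * k + 1) : ℤ⟦X⟧)) 1 (by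
    rw [map_prod]
    simp)
  calc _ = invOfUnit (∏ k ∈ Finset.range m, (1 - X ^ (2 * k + 1) : ℤ⟦X⟧)) 1 *
        ((∏ k ∈ Finset.range m, (1 - X ^ (2 * k + 1) : ℤ⟦X⟧)) * In m) := by rw [h1, mul_one]
    _ = _ := by rw [← mul_assoc, mul_comm (invOfUnit _ _), h2, one_mul]

theorem term_eq (m : ℕ) : term m = lT 0 m := by
  unfold term lT
  rw [EN_eq, inv_eq]
  ring

theorem tsum_term : ∑' m, term m = LL 0 := by
  have h : term = lT 0 := funext term_eq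
  rw [h, SS_eq_tsum (Ad_l 0)]
  rfl

end Q279.TO
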