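import Pool.Agent.Q279.QS.SS

/-!
# The three recurrences for `T_o`
-/

set_option autoImplicit false

namespace Q279.TO

open PowerSeries Q279.QS

/-- `1/(1 - X^(k+1))` -/
noncomputable def iw (k : ℕ) : ℤ⟦X⟧ := invOfUnit (1 - X ^ (k + 1)) 1

theorem iw_mul (k : ℕ) : (1 - X ^ (k + 1)) * iw k = 1 := mul_invOfUnit _ 1 (by simp)

/-- `∏_{i<n} 1/(1 + X^{2j+2+2i})` -/
noncomputable def Pj (j n : ℕ) : ℤ⟦X⟧ := ∏ i ∈ Finset.range n, iv (2 * j + 1 + 2 * i)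

/-- `∏_{i<n} 1/(1 + X^{2i+1})` -/
noncomputable def On (n : ℕ) : ℤ⟦X⟧ := ∏ i ∈ Finset.range n, iv (2 * i)

/-- `∏_{i<n} (1 + X^{2j+1+2i})` -/
noncomputable def Nj (j n : ℕ) : ℤ⟦X⟧ := ∏ i ∈ Finset.range n, (1 + X ^ (2 * j + 1 + 2 * i))

/-- `∏_{i<n} (1 + X^{2i+2})` -/
noncomputable def En (n : ℕ) : ℤ⟦X⟧ := ∏ i ∈ Finset.range n, (1 + X ^ (2 * i + 2))

/-- `∏_{i<n} 1/(1 - X^{2i+1})` -/
noncomputable def In (n : ℕ) : ℤ⟦X⟧ := ∏ i ∈ Finset.range n, iw (2 * i)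

theorem Pj_succ (j n : ℕ) : Pj j (n + 1) = Pj j n * iv (2 * j + 1 + 2 * n) := by
  rw [Pj, Finset.prod_range_succ]; rfl

theorem Pj_shift (j n : ℕ) : Pj (j + 1) n = Pj j (n + 1) * (1 + X ^ (2 * j + 2)) := by
  rw [Pj, Pj, Finset.prod_range_succ']
  have h : ∀ i ∈ Finset.range n, iv (2 * (j + 1) + 1 + 2 * i) = iv (2 * j + 1 + 2 * (i + 1)) :=
    fun i _ => by congr 1; ring
  rw [Finset.prod_congr rfl h, mul_assoc, mul_comm (iv (2 * j + 1 + 2 * 0)),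
    show 2 * j + 1 + 2 * 0 = 2 * j + 1 by ring, iv_mul, mul_one]

theorem Nj_succ (j n : ℕ) : Nj j (n + 1) = Nj j n * (1 + X ^ (2 * j + 1 + 2 * n)) := by
  rw [Nj, Finset.prod_range_succ]; rfl

theorem Nj_shift (j n : ℕ) : (1 + X ^ (2 * j + 1)) * Nj (j + 1) n = Nj j (n + 1) := by
  rw [Nj, Nj, Finset.prod_range_succ', mul_comm]
  congr 1
  refine Finset.prod_congr rfl fun i _ => ?_
  congr 2
  ring

theorem On_succ (n : ℕ) : On (n + 1) = On n * iv (2 * n) := by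
  rw [On, Finset.prod_range_succ]; rfl

theorem En_succ (n : ℕ) : En (n + 1) = En n * (1 + X ^ (2 * n + 2)) := by
  rw [En, Finset.prod_range_succ]; rfl

theorem In_succ (n : ℕ) : In (n + 1) = In n * iw (2 * n) := by
  rw [In, Finset.prod_range_succ]; rfl

/-! ### the sum `A_j` -/

noncomputable def aT (j n : ℕ) : ℤ⟦X⟧ := X ^ ((2 * j + 1) * n + 2 * n ^ 2) * Pj j n * On (n + 1)

noncomputable def vT (j n : ℕ) : ℤ⟦X⟧ := X ^ ((2 * j + 1) * n + 2 * n ^ 2) * Pj j n * On n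

theorem le_e (j n : ℕ) : n ≤ (2 * j + 1) * n + 2 * n ^ 2 := by nlinarith

theorem Ad_a (j : ℕ) : Ad (aT j) := fun n =>
  ((pow_dvd_pow X (le_e j n)).mul_right _).mul_right _

theorem Ad_v (j : ℕ) : Ad (vT j) := fun n =>
  ((pow_dvd_pow X (le_e j n)).mul_right _).mul_right _

noncomputable def AA (j : ℕ) : ℤ⟦X⟧ := SS (aT j)

theorem alg_a {R : Type*} [CommRing R] (K P O α β x y q : R) (h1 : (1 + y * q * x * q) * α = 1)
    (h2 : (1 + x * q) * β = 1) :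
    (1 + y * q ^ 2) * (K * P * (O * β)) + q * (K * x * (P * α * (1 + y * q ^ 2)) * (O * β)) =
      (1 + y * q ^ 2) * (K * P * O - K * (y * q) * x ^ 2 * q ^ 2 * (P * α) * (O * β)) := by
  linear_combination ((1 + y * q ^ 2) * K * P * O) *
    (-β * h1 + (1 + y * q * x * q) * α * h2 + h1)

theorem alg_c {R : Type*} [CommRing R] (K P O N E α β x y q : R)
    (h1 : (1 + y * q * x * q) * α = 1) (h2 : (1 + x * q) * β = 1) :
    (1 + y * q ^ 2) * (K * N * E * P * (O * β) * (1 - y * x ^ 2 * q ^ 2)) +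
      q * (K * x * (N * (1 + y * q * x)) * E * (P * α * (1 + y * q ^ 2)) * (O * β) *
        (1 - y * x ^ 2 * q ^ 4)) =
      (1 + y * q ^ 2) * (K * N * E * P * O -
        K * (y * q) * x ^ 2 * q ^ 2 * (N * (1 + y * q * x)) * (E * (1 + x * q ^ 2)) * (P * α) *
          (O * β)) := by
  linear_combination ((1 + y * q ^ 2) * K * P * O * N * E) *
    (-(1 - y * x ^ 2 * q ^ 2) * β * h1 + (1 + y * q * x * q) * α * h2 + h1)

theorem X4 (n : ℕ) : (X : ℤ⟦X⟧) ^ (4 * n) = (X ^ (2 * n)) ^ 2 := by rw [← pow_mul]; congr 1; ring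

theorem a_rec (j n : ℕ) : (1 + X ^ (2 * j + 2)) * aT j n + X * aT (j + 1) n =
    (1 + X ^ (2 * j + 2)) * (vT j n - vT j (n + 1)) := by
  have h1 := iv_mul (2 * j + 1 + 2 * n)
  have h2 := iv_mul (2 * n)
  unfold aT vT
  rw [Pj_shift, Pj_succ, On_succ]
  rw [show (2 * (j + 1) + 1) * n + 2 * n ^ 2 = (2 * j + 1) * n + 2 * n ^ 2 + 2 * n by ring,
    show (2 * j + 1) * (n + 1) + 2 * (n + 1) ^ 2 =
      ((2 * j + 1) * n + 2 * n ^ 2) + (2 * j + 1) + 4 * n + 2 by ring]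
  generalize iv (2 * j + 1 + 2 * n) = α at h1 ⊢
  generalize iv (2 * n) = β at h2 ⊢
  generalize (2 * j + 1) * n + 2 * n ^ 2 = k
  simp only [pow_add, pow_one, X4] at h1 h2 ⊢
  exact alg_a _ _ _ _ _ _ _ _ h1 h2

theorem vT_zero (j : ℕ) : vT j 0 = 1 := by simp [vT, Pj, On]

theorem const_e (j : ℕ) : constantCoeff (1 + X ^ (2 * j + 2) : ℤ⟦X⟧) = 1 := by simp

theorem AA_rec (j : ℕ) : (1 + X ^ (2 * j + 2)) * AA j + X * AA (j + 1) = 1 + X ^ (2 * j + 2) := by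
  unfold AA
  rw [← SS_mul (Ad_a j), ← SS_mul (Ad_a (j + 1)), ← SS_add, SS_congr (a_rec j),
    SS_mul (Ad_v j).sub_mul, SS_tele (Ad_v j), vT_zero, mul_one]

/-! ### the sum `C_j` -/

noncomputable def cT (j n : ℕ) : ℤ⟦X⟧ :=
  X ^ ((2 * j + 1) * n + 2 * n ^ 2) * Nj j n * En n * Pj j n * On (n + 1) *
    (1 - X ^ (2 * j + 4 * n + 2))

noncomputable def wT (j n : ℕ) : ℤ⟦X⟧ :=
  X ^ ((2 * j + 1) * n + 2 * n ^ 2) * Nj j n * En n * Pj j n * On n

theorem Ad_c (j : ℕ) : Ad (cT j) := fun n =>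
  (((((pow_dvd_pow X (le_e j n)).mul_right _).mul_right _).mul_right _).mul_right _).mul_right _

theorem Ad_w (j : ℕ) : Ad (wT j) := fun n =>
  ((((pow_dvd_pow X (le_e j n)).mul_right _).mul_right _).mul_right _).mul_right _

noncomputable def CC (j : ℕ) : ℤ⟦X⟧ := SS (cT j)

theorem c_rec (j n : ℕ) : (1 + X ^ (2 * j + 2)) * cT j n + X * ((1 + X ^ (2 * j + 1)) * cT (j + 1) n) =
    (1 + X ^ (2 * j + 2)) * (wT j n - wT j (n + 1)) := by
  have h1 := iv_mul (2 * j + 1 + 2 * n)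
  have h2 := iv_mul (2 * n)
  have h3 := Nj_shift j n
  rw [Nj_succ] at h3
  have h4 : X * ((1 + X ^ (2 * j + 1)) * cT (j + 1) n) =
      X * (X ^ ((2 * (j + 1) + 1) * n + 2 * n ^ 2) * ((1 + X ^ (2 * j + 1)) * Nj (j + 1) n) * En n *
        Pj (j + 1) n * On (n + 1) * (1 - X ^ (2 * (j + 1) + 4 * n + 2))) := by
    unfold cT; ring
  rw [h4, h3]
  unfold cT wT
  rw [Pj_shift, Pj_succ, On_succ, Nj_succ, En_succ]
  rw [show (2 * (j + 1) + 1) * n + 2 * n ^ 2 = (2 * j + 1) * n + 2 * n ^ 2 + 2 * n by ring,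
    show (2 * j + 1) * (n + 1) + 2 * (n + 1) ^ 2 =
      ((2 * j + 1) * n + 2 * n ^ 2) + (2 * j + 1) + 4 * n + 2 by ring,
    show 2 * (j + 1) + 4 * n + 2 = 2 * j + 4 * n + 4 by ring]
  generalize iv (2 * j + 1 + 2 * n) = α at h1 ⊢
  generalize iv (2 * n) = β at h2 ⊢
  generalize (2 * j + 1) * n + 2 * n ^ 2 = k
  simp only [pow_add, pow_one, X4] at h1 h2 ⊢
  exact alg_c _ _ _ _ _ _ _ _ _ _ h1 h2

theorem wT_zero (j : ℕ) : wT j 0 = 1 := by simp [wT, Pj, On, Nj, En]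

theorem CC_rec (j : ℕ) : (1 + X ^ (2 * j + 2)) * CC j + X * ((1 + X ^ (2 * j + 1)) * CC (j + 1)) =
    1 + X ^ (2 * j + 2) := by
  unfold CC
  have hA : Ad fun n => (1 + X ^ (2 * j + 1)) * cT (j + 1) n := fun n => (Ad_c (j + 1) n).mul_left _
  rw [← SS_mul (Ad_c j), ← SS_mul (Ad_c (j + 1)), ← SS_mul hA, ← SS_add, SS_congr (c_rec j),
    SS_mul (Ad_w j).sub_mul, SS_tele (Ad_w j), wT_zero, mul_one]

/-! ### the sum `L_j` -/

noncomputable def lT (j m : ℕ) : ℤ⟦X⟧ := X ^ (2 * m) * En m * Nj j m * In (m + 1)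

noncomputable def uT (j m : ℕ) : ℤ⟦X⟧ := En m * Nj j m * In m

theorem Ad_l (j : ℕ) : Ad (lT j) := fun m =>
  (((pow_dvd_pow X (by omega)).mul_right _).mul_right _).mul_right _

noncomputable def LL (j : ℕ) : ℤ⟦X⟧ := SS (lT j)

theorem u_diff (j m : ℕ) : uT j (m + 1) - uT j m = (1 + X ^ (2 * j)) * (X * lT j m) +
    X * ((1 + X ^ (2 * j + 1)) * (X * lT (j + 1) m)) := by
  have h1 := iw_mul (2 * m)
  have h3 := Nj_shift j m
  rw [Nj_succ] at h3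
  have h4 : X * ((1 + X ^ (2 * j + 1)) * (X * lT (j + 1) m)) =
      X * (X * (X ^ (2 * m) * En m * ((1 + X ^ (2 * j + 1)) * Nj (j + 1) m) * In (m + 1))) := by
    unfold lT; ring
  rw [h4, h3]
  unfold uT lT
  rw [En_succ, Nj_succ, In_succ]
  simp only [pow_add, pow_one] at h1 ⊢
  linear_combination (En m * Nj j m * In m) * h1

theorem Ad_u (j m : ℕ) : X ^ m ∣ uT j (m + 1) - uT j m := by
  rw [u_diff]
  exact dvd_add (((Ad_l j m).mul_left _).mul_left _) ((((Ad_l (j + 1) m).mul_left _).mul_left _).mul_left _)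

/-- the infinite product `π_j` -/
noncomputable def pj (j : ℕ) : ℤ⟦X⟧ := uT j 0 + SS (fun m => uT j (m + 1) - uT j m)

theorem uT_zero (j : ℕ) : uT j 0 = 1 := by simp [uT, En, Nj, In]

theorem LL_rec (j : ℕ) : (1 + X ^ (2 * j)) * (X * LL j) + X * ((1 + X ^ (2 * j + 1)) * (X * LL (j + 1))) =
    pj j - 1 := by
  unfold pj LL
  have h1 := Ad_l j
  have h2 := Ad_l (j + 1)
  have h3 : Ad fun m => X * lT j m := fun m => (h1 m).mul_left _
  have h4 : Ad fun m => X * lT (j + 1) m := fun m => (h2 m).mul_left _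
  have h5 : Ad fun m => (1 + X ^ (2 * j + 1)) * (X * lT (j + 1) m) := fun m => (h4 m).mul_left _
  rw [← SS_mul h1, ← SS_mul h3, ← SS_mul h2, ← SS_mul h4, ← SS_mul h5, ← SS_add, uT_zero,
    SS_congr (u_diff j)]
  ring

theorem pj_dvd (j m : ℕ) : X ^ m ∣ pj j - uT j m := SS_lim (Ad_u j) m

theorem eq_of_dvd {F G : ℤ⟦X⟧} (h : ∀ m, X ^ m ∣ F - G) : F = G := by
  ext k
  have := X_pow_dvd_iff.1 (h (k + 1)) k (Nat.lt_succ_self k)
  rw [map_sub, sub_eq_zero] at this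
  exact this

theorem pj_rec (j : ℕ) : pj j = (1 + X ^ (2 * j + 1)) * pj (j + 1) := by
  refine eq_of_dvd fun m => ?_
  have h1 := pj_dvd j m
  have h2 := pj_dvd (j + 1) m
  have h3 : (1 + X ^ (2 * j + 1)) * uT (j + 1) m = uT j m * (1 + X ^ (2 * j + 1 + 2 * m)) := by
    have h3 := Nj_shift j m
    rw [Nj_succ] at h3
    unfold uT
    linear_combination (En m * In m) * h3
  have h4 : pj j - (1 + X ^ (2 * j + 1)) * pj (j + 1) = (pj j - uT j m) -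
      (1 + X ^ (2 * j + 1)) * (pj (j + 1) - uT (j + 1) m) - uT j m * X ^ (2 * j + 1 + 2 * m) := by
    linear_combination -h3
  rw [h4]
  exact dvd_sub (dvd_sub h1 (h2.mul_left _)) ((pow_dvd_pow X (by omega)).mul_left _)

/-- the general formula -/
theorem main_rec (j : ℕ) : (1 + X ^ (2 * j)) * (X * LL j) = pj j * AA j - CC j := by
  have h := uniq (δ := fun j => (1 + X ^ (2 * j)) * (X * LL j) - (pj j * AA j - CC j))
    (e := fun j => 1 + X ^ (2 * j + 2)) (c := fun j => -(1 + X ^ (2 * j + 1))) const_e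
    (fun j => by
      have h1 := LL_rec j
      have h2 := AA_rec j
      have h3 := CC_rec j
      have h4 := pj_rec j
      have h5 : (2 * (j + 1)) = 2 * j + 2 := by ring
      rw [h5]
      linear_combination (1 + X ^ (2 * j + 2)) * h1 - pj j * h2 + h3 + X * AA (j + 1) * h4) j
  exact sub_eq_zero.1 h

end Q279.TO
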